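import Pool.Agent.Helper37.KDB.Reg

/-! Project KDP (PDE part of KDB, `MP_019250_an`): definitions.
See /team-store/KDB_plan.md, section 7, and /team-store/KDP_hints.md. -/

set_option autoImplicit false

namespace KDB

open MeasureTheory Set Filter Topology
open scoped ENNReal NNReal ContDiff

/-- Lipschitz cut-off of the union of the unit balls around the points of `G`: one on this union,
zero outside the union of the balls of radius two -/
noncomputable def bump {E : Type*} [SeminormedAddCommGroup E] (G : Finset E) (z : E) : ℝ :=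
  ((G.sup fun c => (2 - ‖z - c‖).toNNReal ⊓ 1 : ℝ≥0) : ℝ)

/-- one step of jumps with the jump kernel `k` -/
noncomputable def TT {d : ℕ} (k : V d × V d → V d → ℝ) (f : V d × V d → ℝ) (z : V d × V d) : ℝ :=
  f z + ∫ w : V d, (f (z.1, z.2 + w) - f z) * k z w

/-- free flight during one step of length `h` -/
def Sh {d : ℕ} (h : ℝ) (z : V d × V d) : V d × V d := (z.1 + h • z.2, z.2)

/-- admissible jump kernels (per step): total mass at most `m`, Lipschitz in `L¹` with constant
`c`, jumps of size at most `W`, symmetric -/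
structure KOk {d : ℕ} (k : V d × V d → V d → ℝ) (m c W : ℝ) : Prop where
  meas : Measurable (Function.uncurry k)
  nonneg : ∀ z w, 0 ≤ k z w
  int : ∀ z, Integrable (k z)
  mass : ∀ z, ∫ w, k z w ≤ m
  lip : ∀ z z', ∫ w, |k z w - k z' w| ≤ c * ‖z - z'‖
  supp : ∀ z w, W < ‖w‖ → k z w = 0
  even : ∀ z w, k z (-w) = k z w

/-- the backward recursion with the jump kernels `k i` (per step) -/
noncomputable def bk {d : ℕ} (h : ℝ) (k : ℕ → V d × V d → V d → ℝ) (f0 : V d × V d → ℝ) :
    ℕ → V d × V d → ℝ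
  | 0 => f0
  | i + 1 => fun z => TT (k i) (bk h k f0 i) (Sh h z)

/-- the number of the step containing the time `t` (negative times are moved to `0`) -/
noncomputable def ix (h t : ℝ) : ℕ := ⌊max t 0 / h⌋₊

/-- the position of the time `t` in its step -/
noncomputable def fr (h t : ℝ) : ℝ := max t 0 / h - ix h t

/-- the state at the beginning of the step, on the same characteristic -/
noncomputable def zt {d : ℕ} (h t : ℝ) (x v : V d) : V d × V d := (x + (fr h t * h) • v, v)

/-- interpolation of the backward recursion, linear along the characteristics -/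
noncomputable def FF {d : ℕ} (h : ℝ) (k : ℕ → V d × V d → V d → ℝ) (f0 : V d × V d → ℝ)
    (t : ℝ) (x v : V d) : ℝ :=
  (1 - fr h t) * bk h k f0 (ix h t) (zt h t x v) +
    fr h t * TT (k (ix h t)) (bk h k f0 (ix h t)) (zt h t x v)

/-- derivative of the interpolation along the characteristics -/
noncomputable def RR {d : ℕ} (h : ℝ) (k : ℕ → V d × V d → V d → ℝ) (f0 : V d × V d → ℝ)
    (t : ℝ) (x v : V d) : ℝ :=
  (TT (k (ix h t)) (bk h k f0 (ix h t)) (zt h t x v) - bk h k f0 (ix h t) (zt h t x v)) / h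

/-- the jump kernel per unit of time -/
noncomputable def KK {d : ℕ} (h : ℝ) (k : ℕ → V d × V d → V d → ℝ) (t : ℝ) (x v w : V d) : ℝ :=
  k (ix h t) (zt h t x v) w / h

/-- Lipschitz function `F` with the one sided derivative `R` along the characteristics of
`∂_t - v·∇_x`, which is nearly a solution of `∂_t F - v·∇_x F = ∫ (F(v+w) - F(v)) K dw` -/
structure Apx {d : ℕ} (F : ℝ → V d → V d → ℝ) (K : ℝ → V d → V d → V d → ℝ)
    (R : ℝ → V d → V d → ℝ) (T Lp m W e : ℝ) : Prop where
  cont : Continuous (fun p : ℝ × V d × V d => F p.1 p.2.1 p.2.2)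
  mem : ∀ t x v, 0 ≤ F t x v ∧ F t x v ≤ 1
  lip : ∀ t x v x' v', 0 ≤ t → t ≤ T →
    |F t x v - F t x' v'| ≤ Lp * max ‖x - x'‖ ‖v - v'‖
  Kmeas : Measurable (fun p : ℝ × V d × V d × V d => K p.1 p.2.1 p.2.2.1 p.2.2.2)
  Knn : ∀ t x v w, 0 ≤ K t x v w
  Kint : ∀ t x v, Integrable (K t x v)
  Kmass : ∀ t x v, ∫ w, K t x v w ≤ m
  Ksupp : ∀ t x v w, W < ‖w‖ → K t x v w = 0
  Rmeas : Measurable (fun p : ℝ × V d × V d => R p.1 p.2.1 p.2.2)
  Rb : ∀ t x v, |R t x v| ≤ m
  char : ∀ t x v, 0 ≤ t → ∀ᶠ τ in 𝓝[>] (0 : ℝ), F (t + τ) (x - τ • v) v = F t x v + τ * R t x v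
  charb : ∀ t x v τ, 0 ≤ t → 0 ≤ τ → |F (t + τ) (x - τ • v) v - F t x v| ≤ m * τ
  eqn : ∀ t x v, 0 ≤ t → t ≤ T →
    |R t x v - ∫ w, (F t x (v + w) - F t x v) * K t x v w| ≤ e

/-- smooth mollifier supported in the ball of radius `η` -/
structure Mo {d : ℕ} (ψ : ℝ × V d × V d → ℝ) (η : ℝ) : Prop where
  smooth : ContDiff ℝ ∞ ψ
  nonneg : ∀ a, 0 ≤ ψ a
  supp : ∀ a, η < ‖a‖ → ψ a = 0
  int : Integrable ψ
  one : ∫ a, ψ a = 1

/-- mollification in all variables -/
noncomputable def mol {d : ℕ} (ψ : ℝ × V d × V d → ℝ) (F : ℝ → V d → V d → ℝ) (t : ℝ)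
    (x v : V d) : ℝ :=
  ∫ a : ℝ × V d × V d, ψ a * F (t - a.1) (x - a.2.1) (v - a.2.2)

/-- uniform density of the cube of radius `r` -/
noncomputable def ind {d : ℕ} (r : ℝ) (w : V d) : ℝ :=
  open Classical in if ‖w‖ ≤ r then ((2 * r) ^ d)⁻¹ else 0

namespace Par

variable (p : Par)

/-- density of the rings of level `k` at step `j` seen from the state `z` -/
noncomputable def rk (k j : ℕ) (z : p.St) (w : V p.d) : ℝ :=
  ∫ y, (ind (p.rad k) (w - p.wst k j (z.1 - p.vs • y.1) (z.2 - p.vs • y.2)) +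
    ind (p.rad k) (w + p.wst k j (z.1 - p.vs • y.1) (z.2 - p.vs • y.2))) / 2 ∂(jitLaw p.d)

/-- kernel (per step) of the rings at step `j` -/
noncomputable def ra (j : ℕ) (z : p.St) (w : V p.d) : ℝ :=
  ∑ k ∈ Finset.range p.n, p.pring k j * p.rk k j z w

/-- kernel (per step) of the full control at step `j` -/
noncomputable def kfull (j : ℕ) (z : p.St) (w : V p.d) : ℝ := p.h * p.kd w + p.ra j z w

/-- kernel (per step) of the backward recursion: rings only near the sets `G` -/
noncomputable def ker (N : ℕ) (G : ℕ → Finset p.St) (i : ℕ) (z : p.St) (w : V p.d) : ℝ :=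
  p.h * p.kd w + if i < N then bump (G (N - i)) z * p.ra (N - 1 - i) z w else 0

/-- the value function -/
noncomputable def vf (N : ℕ) (G : ℕ → Finset p.St) (i : ℕ) (z : p.St) : ℝ :=
  bk p.h (p.ker N G) (bump (G N)) i z

/-- bound for the rate of the rings -/
noncomputable def mr : ℝ := 2 * p.mu * (p.L : ℝ) ^ p.q

/-- bound for the Lipschitz constant per unit of time -/
noncomputable def cc : ℝ := p.mr * (1 + 2 * p.d / p.vs)

/-- ellipticity constant of the rings -/
noncomputable def LamR : ℝ :=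
  2 * p.mu * (p.L : ℝ) ^ p.q * (p.ell : ℝ) ^ (p.b * p.d) *
    ((p.d : ℝ) * p.L * p.ell) ^ ((p.d : ℝ) + 2 * p.s)

end Par

end KDB
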