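import Pool.Agent.Helper34.KDB.St.F5
import Pool.Agent.Helper37.KDB.St.C7

/-! KDP: the final theorem. -/

set_option autoImplicit false

namespace KDB

open MeasureTheory Set Filter Topology KD.IV
open scoped ENNReal NNReal ContDiff

theorem CexV.mono {d : ℕ} {s lam Lam Lam' δ : ℝ} (h : CexV d s lam Lam δ) (hL : Lam ≤ Lam') :
    CexV d s lam Lam' δ := by
  obtain ⟨K, F, h1, h2, h3, h4, h5, h6, h7, h8⟩ := h
  exact ⟨K, F, h1, h2, fun t x v w hw => ⟨(h3 t x v w hw).1, (h3 t x v w hw).2.trans hL⟩,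
    h4, h5, h6, h7, h8⟩

/-- The kinetic Krylov–Safonov estimate fails for `s = 1 / (2 q)`, all large `q`, all large
dimensions `d` and all ellipticity constants with large ratio. -/
theorem kdb_final :
    ∃ q0 : ℕ, ∀ q : ℕ, q0 ≤ q → ∃ d0 : ℕ, ∀ d : ℕ, d0 ≤ d → ∃ M : ℝ, 1 ≤ M ∧
      ∀ lam Lam : ℝ, 0 < lam → M * lam ≤ Lam → ∀ α C : ℝ, 0 < α →
      ∃ (K : ℝ → Ed d → Ed d → Ed d → ℝ) (f h : ℝ → Ed d → Ed d → ℝ),
        SolE (1 / (2 * q)) lam Lam 1 1 K f h ∧ ∃ z ∈ QE d, ∃ z' ∈ QE d,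
          C * (1 + 1) * dl (1 / (2 * q)) z z' ^ α <
            |f z.1 z.2.1 z.2.2 - f z'.1 z'.2.1 z'.2.2| := by
  obtain ⟨L, mu, R, q0, h⟩ := params
  refine ⟨max q0 2, fun q hq => ?_⟩
  obtain ⟨d0, hd⟩ := h q ((le_max_left _ _).trans hq)
  refine ⟨d0, fun d hdd => ?_⟩
  obtain ⟨lam0, hlam0, hreg⟩ := hd d hdd
  have hq2 : 2 ≤ q := (le_max_right _ _).trans hq
  have hA : Adm d L q mu lam0 R :=
    ⟨hq2, fun n H vs eps hn hH hvs hvs1 heps heps1 =>
      hreg lam0 hlam0 le_rfl n H vs eps hn hH hvs hvs1 heps heps1⟩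
  -- one instance of the regime, for the standing facts
  have hvs : (0 : ℝ) < 1 / (100 * (1 + (L : ℝ) ^ 1)) := by positivity
  have hvs1 : 1 / (100 * (1 + (L : ℝ) ^ 1)) * (1 + (L : ℝ) ^ 1) ≤ 1 / 100 := by
    have : (0 : ℝ) < 1 + (L : ℝ) ^ 1 := by positivity
    apply le_of_eq; field_simp
  have hOk := (hA.reg 1 1 _ (1 / 2) le_rfl le_rfl hvs hvs1 (by norm_num) (by norm_num)).toOk
  have hd1 : 1 ≤ d := hOk.hd
  have hmu : 0 < mu := hOk.hmu
  set LR : ℝ := Par.LamR ⟨d, L, q, 1, 1, mu, lam0, 1, 1, R⟩ with hLR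
  have hLR0 : 0 ≤ LR := by
    rw [hLR]; simp only [Par.LamR, Par.ell, Par.b, Par.s]
    positivity
  refine ⟨1 + LR / lam0, by have : 0 ≤ LR / lam0 := by positivity
                            linarith, ?_⟩
  intro lam Lam hlam hLam α C hα
  have hq0 : (0 : ℝ) < q := by exact_mod_cast (by omega : 0 < q)
  refine cexE d hd1 (1 / (2 * q)) lam Lam (by positivity) hlam (fun δ hδ => ?_) α C hα
  have hc := cexVc d L q mu lam0 R hA (lam / lam0) (by positivity) δ hδ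
  have e1 : lam / lam0 * lam0 = lam := by field_simp
  have e2' : lam / lam0 * (lam0 + LR) = (1 + LR / lam0) * lam := by field_simp
  rw [e1, ← hLR, e2'] at hc
  exact hc.mono hLam

end KDB
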